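import Pool.Agent.TH682.PM.Mart
import Pool.Agent.TH682.VC.Excl
import Pool.Agent.TH682.HX.Up

/-!
# The martingale is computable in polynomial time
-/

set_option autoImplicit false

namespace Pool.Agent.TH682.PM

open Pool.Agent.NPC Pool.Agent.H579R2.Spt Pool.Agent.TH682.EL Pool.Agent.TH682.GD
open Pool.Agent.TH682.VC (num str bits_num str_num num_poly str_poly num_lt)
open Pool.Agent.H660R2.NX (U U_complete poly_U)

variable {α : Type} [TEnc α]

/-- Powers with unary exponents. -/
theorem powc_poly (c : ℕ) {e : α → ℕ} (he : UPoly e) : Poly (fun a => c ^ e a) := by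
  have key : ∀ k : ℕ, (List.replicate k ()).foldl (fun (s : ℕ) _ => c * s) 1 = c ^ k := by
    intro k
    induction k with
    | zero => rfl
    | succ k ih =>
      rw [List.replicate_succ', List.foldl_append, ih, List.foldl_cons, List.foldl_nil, pow_succ']
  obtain ⟨r, hr⟩ := NPC.Poly.sz_le (f := fun a => List.replicate (e a) ()) he
  have h1 : Poly (fun a => (List.replicate (e a) ()).foldl (fun (s : ℕ) _ => c * s) 1) := by
    refine NPC.Poly.foldl (l := fun a => List.replicate (e a) ()) (s := fun _ => 1)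
      (F := fun _ s _ => c * s) he (NPC.Poly.const 1) (NPC.Poly.mul (NPC.Poly.const c)
        (NPC.Poly.fst (NPC.Poly.snd NPC.Poly.id))) (Polynomial.C 4 * (r * Polynomial.C c.size + 1) + 1)
      fun a k hk => ?_
    rw [List.length_replicate] at hk
    rw [List.take_replicate, min_eq_left hk, key]
    have h2 := sz_nat_le (c ^ k)
    have h3 : (c ^ k).size ≤ k * c.size + 1 := by
      have h4 : c ^ k ≤ 2 ^ (k * c.size) := by
        rw [mul_comm, pow_mul]
        exact Nat.pow_le_pow_left (Nat.lt_size_self c).le k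
      refine (Nat.size_le_size h4).trans ?_
      rw [Nat.size_pow]
    have h5 : k ≤ r.eval (sz a) := by
      have h6 := hr a
      have h7 := length_lt_sz (List.replicate (e a) ())
      rw [List.length_replicate] at h7
      omega
    have h6 : k * c.size ≤ r.eval (sz a) * c.size := Nat.mul_le_mul_right _ h5
    simp only [Polynomial.eval_add, Polynomial.eval_mul, Polynomial.eval_C, Polynomial.eval_ofNat,
      Polynomial.eval_one]
    omega
  exact h1.congr fun a => key _

/-! ### One gambler -/

/-- A step on a precomputed list. -/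
def gs2 (s : List (List ℕ) × ℕ) (p : Bool × List (List ℕ)) : List (List ℕ) × ℕ :=
  if decide (cnt s.1 p.2 % 2 = 1) = p.1 then (s.1, s.2 + 1) else (lrn s.1 p.2, s.2)

theorem gs2_poly {s : α → List (List ℕ) × ℕ} {p : α → Bool × List (List ℕ)} (hs : Poly s)
    (hp : Poly p) : Poly (fun a => gs2 (s a) (p a)) := by
  have s1 := NPC.Poly.fst hs
  have s2 := NPC.Poly.snd hs
  have p1 := NPC.Poly.fst hp
  have p2 := NPC.Poly.snd hp
  exact NPC.Poly.ite (NPC.Poly.decide_eq (NPC.Poly.decide_eq (NPC.Poly.mod
    (cnt_poly s1 p2).toPoly (NPC.Poly.const 2)) (NPC.Poly.const 1)) p1)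
    (NPC.Poly.pair s1 (NPC.Poly.add s2 (NPC.Poly.const 1))) (NPC.Poly.pair (lrn_poly s1 p2) s2)

theorem good_gs2 {B : ℕ} : ∀ (Ls : List (Bool × List (List ℕ))) (s : List (List ℕ) × ℕ),
    (∀ τ ∈ s.1, Good B τ) → (∀ p ∈ Ls, ∀ τ ∈ p.2, Good B τ) →
    (∀ τ ∈ (Ls.foldl gs2 s).1, Good B τ) ∧ (Ls.foldl gs2 s).1.length ≤ s.1.length + Ls.length ∧
      (Ls.foldl gs2 s).2 ≤ s.2 + Ls.length := by
  intro Ls
  induction Ls with
  | nil => intro s hT _; exact ⟨hT, by simp, by simp⟩
  | cons p Ls ih =>
    intro s hT hL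
    have h1 : (∀ τ ∈ (gs2 s p).1, Good B τ) ∧ (gs2 s p).1.length ≤ s.1.length + 1 ∧
        (gs2 s p).2 ≤ s.2 + 1 := by
      unfold gs2
      split_ifs
      · exact ⟨hT, by simp, by simp⟩
      · exact ⟨good_lrn hT (hL p (by simp)), lrn_length_le _ _, by simp⟩
    obtain ⟨h3, h4, h5⟩ := ih (gs2 s p) h1.1 fun q hq => hL q (by simp [hq])
    rw [List.foldl_cons, List.length_cons]
    refine ⟨h3, ?_, ?_⟩
    · have := h1.2.1
      omega
    · have := h1.2.2
      omega

theorem run_poly {Ls : α → List (Bool × List (List ℕ))} (hl : Poly Ls) :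
    Poly (fun a => (Ls a).foldl gs2 (([] : List (List ℕ)), 0)) := by
  obtain ⟨r, hr⟩ := hl.sz_le
  refine NPC.Poly.foldl (l := Ls) (s := fun _ => (([] : List (List ℕ)), 0))
    (F := fun _ s p => gs2 s p) hl (NPC.Poly.const _) (gs2_poly
      (NPC.Poly.fst (NPC.Poly.snd NPC.Poly.id)) (NPC.Poly.snd (NPC.Poly.snd NPC.Poly.id)))
    ((r * (r * (Polynomial.C 4 * r + 2) + 2) + 1) + (Polynomial.C 4 * r + 1) + 1) fun a k _ => ?_
  have h1 := hr a
  have h2 : ∀ p ∈ (Ls a).take k, ∀ τ ∈ p.2, Good (r.eval (sz a)) τ := fun p hp τ hτ =>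
    good_of_sz (by
      have h7 := sz_le_of_mem (List.mem_of_mem_take hp)
      have h8 := sz_le_of_mem hτ
      have h9 : sz p = sz p.1 + sz p.2 + 1 := sz_pair p.1 p.2
      omega)
  obtain ⟨h3, h4, h4'⟩ := good_gs2 ((Ls a).take k) ([], 0) (fun τ hτ => by simp at hτ) h2
  have h5 : ((Ls a).take k).length ≤ r.eval (sz a) := by
    have := length_lt_sz (Ls a)
    rw [List.length_take]
    omega
  set s := ((Ls a).take k).foldl gs2 (([] : List (List ℕ)), 0) with hs
  have h6 := sz_le_length_mul s.1 (r.eval (sz a) *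
    (4 * r.eval (sz a) + 2) + 1) fun τ hτ => (h3 τ hτ).sz_le
  have h7 : sz s = sz s.1 + sz s.2 + 1 := sz_pair s.1 s.2
  have h8 := sz_nat_le s.2
  have h9 := NPC.Poly.size_le_self s.2
  rw [h7]
  simp only [Polynomial.eval_add, Polynomial.eval_mul, Polynomial.eval_C, Polynomial.eval_ofNat,
    Polynomial.eval_one]
  rw [List.length_nil] at h4
  have h10 : s.1.length * (r.eval (sz a) * (4 * r.eval (sz a) + 2) + 1 + 1) ≤
      r.eval (sz a) * (r.eval (sz a) * (4 * r.eval (sz a) + 2) + 2) :=
    Nat.mul_le_mul (by omega) le_rfl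
  omega

/-- The lists of a gambler, with the time bound `t`. -/
def GT (t j : ℕ) (x : List Bool) : List (List ℕ) :=
  match unbits (Cod × ℕ) (str j) with
  | none => []
  | some r => out r x (List.replicate t true)

/-- The gamblers. -/
def GG (n j : ℕ) (x : List Bool) : List (List ℕ) := GT (2 ^ n) j x

theorem out_poly {r : α → Cod × ℕ} {x pd : α → List Bool} (hr : Poly r) (hx : Poly x)
    (hpd : Poly pd) : Poly (fun a => out (r a) (x a) (pd a)) := by
  have o1 : Poly (fun a => U (r a).1 (bits (x a, (r a).2)) (pd a).length) := by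
    have h1 : Poly (fun a => ((r a).1, bits (x a, (r a).2), (pd a).map (fun _ => ()))) := by
      refine NPC.Poly.pair (NPC.Poly.fst hr) (NPC.Poly.pair
        (bits_poly.comp (NPC.Poly.pair hx (NPC.Poly.snd hr))) ?_)
      exact NPC.Poly.map (l := pd) (F := fun _ _ => ()) hpd (NPC.Poly.const ())
    refine (poly_U.comp h1).congr fun p => ?_
    simp
  refine (NPC.Poly.optCases (g := fun _ => ([] : List (List ℕ)))
    (h := fun _ s => (unbits (List (List ℕ)) s).getD []) o1 (NPC.Poly.const _)
    (NPC.Poly.optGetD (poly_unbits.comp (NPC.Poly.snd NPC.Poly.id))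
      (NPC.Poly.const _))).congr fun a => ?_
  unfold out
  cases U (r a).1 (bits (x a, (r a).2)) (pd a).length <;> rfl

theorem GT_poly {t j : α → ℕ} {x : α → List Bool} (ht : UPoly t) (hj : Poly j) (hx : Poly x) :
    Poly (fun a => GT (t a) (j a) (x a)) := by
  have e1 : Poly (fun a => unbits (Cod × ℕ) (str (j a))) := poly_unbits.comp (str_poly.comp hj)
  have e2 : Poly (fun a => List.replicate (t a) true) :=
    (NPC.Poly.map (l := fun a => List.replicate (t a) ()) (F := fun _ _ => true) ht
      (NPC.Poly.const true)).congr fun x => by simp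
  refine (NPC.Poly.optCases (g := fun _ => ([] : List (List ℕ)))
    (h := fun a r => out r (x a) (List.replicate (t a) true)) e1 (NPC.Poly.const _)
    (out_poly (NPC.Poly.snd NPC.Poly.id) (hx.comp (NPC.Poly.fst NPC.Poly.id))
      (e2.comp (NPC.Poly.fst NPC.Poly.id)))).congr fun a => ?_
  unfold GT
  cases unbits (Cod × ℕ) (str (j a)) <;> rfl

theorem sn_poly {i : α → ℕ} (hi : Poly i) : Poly (fun a => sn (i a)) :=
  NPC.Poly.reverse (str_poly.comp (NPC.Poly.add hi (NPC.Poly.const 1)))

theorem lv_poly {n t : α → ℕ} (hn : Poly n) (ht : UPoly t) : Poly (fun a => lv (n a) (t a)) := by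
  refine NPC.Poly.filter (l := fun a => List.range (t a))
    (p := fun a i => decide ((i + 1).size = n a + 1)) ht.range ?_
  have e1 : Poly (fun q : α × ℕ => (q.2 + 1).size) :=
    (NPC.Poly.length (NPC.Poly.natBits (NPC.Poly.add (NPC.Poly.snd NPC.Poly.id)
      (NPC.Poly.const 1)))).congr fun q => Nat.size_eq_bits_len _
  exact NPC.Poly.decide_eq e1 (NPC.Poly.add (hn.comp (NPC.Poly.fst NPC.Poly.id))
    (NPC.Poly.const 1))

/-- The precomputed list. -/
def pre (w : List Bool) (n j : ℕ) : List (Bool × List (List ℕ)) :=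
  (lv n w.length).map (fun i => (w.getD i false, GT (min (2 ^ n) w.length) j (sn i)))

theorem st_eq {w : List Bool} {n j : ℕ} (hn : n < w.length.size) :
    st (GG n j) w n = (pre w n j).foldl gs2 ([], 0) := by
  unfold st pre
  rw [List.foldl_map, min_eq_left]
  · rfl
  · exact Nat.lt_size.1 hn

/-- Powers of two with an exponent less than the size. -/
theorem two_pow_min_poly {n : α → ℕ} {w : α → List Bool} (hn : UPoly n) (hw : Poly w) :
    UPoly (fun a => min (2 ^ n a) (w a).length) := by
  refine UPoly.of_le ?_ (UPoly.length hw) fun a => min_le_right _ _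
  have h1 := Pool.Agent.TH682.HX.two_pow_poly hn
  have h2 := (UPoly.length hw).toPoly
  refine (NPC.Poly.ite (NPC.Poly.decide_le h1 h2) h1 h2).congr fun a => ?_
  by_cases h : 2 ^ n a ≤ (w a).length
  · rw [if_pos h, min_eq_left h]
  · rw [if_neg h, min_eq_right (by omega)]

theorem pre_poly {w : α → List Bool} {n j : α → ℕ} (hw : Poly w) (hn : UPoly n) (hj : Poly j) :
    Poly (fun a => pre (w a) (n a) (j a)) := by
  refine NPC.Poly.map (l := fun a => lv (n a) (w a).length)
    (F := fun a i => ((w a).getD i false, GT (min (2 ^ n a) (w a).length) (j a) (sn i)))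
    (lv_poly hn.toPoly (UPoly.length hw)) ?_
  have f : Poly (fun q : α × ℕ => q.1) := NPC.Poly.fst NPC.Poly.id
  have s : Poly (fun q : α × ℕ => q.2) := NPC.Poly.snd NPC.Poly.id
  exact NPC.Poly.pair (NPC.Poly.getD (hw.comp f) s (NPC.Poly.const false))
    (GT_poly ((two_pow_min_poly hn hw).comp f) (hj.comp f) (sn_poly s))

/-- The number of right predictions. -/
def hit (w : List Bool) (n j : ℕ) : ℕ := ((pre w n j).foldl gs2 ([], 0)).2

theorem hit_le (w : List Bool) (n j : ℕ) : hit w n j ≤ w.length := by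
  obtain ⟨_, _, h⟩ := good_gs2 (B := sz (pre w n j)) (pre w n j) ([], 0) (by simp)
    (fun p hp τ hτ => good_of_sz (by
      have h7 := sz_le_of_mem hp
      have h8 := sz_le_of_mem hτ
      have h9 : sz p = sz p.1 + sz p.2 + 1 := sz_pair p.1 p.2
      omega))
  refine h.trans ?_
  rw [zero_add, pre, List.length_map]
  exact (List.length_filter_le _ _).trans (by rw [List.length_range])

theorem hit_poly {w : α → List Bool} {n j : α → ℕ} (hw : Poly w) (hn : UPoly n) (hj : Poly j) :
    UPoly (fun a => hit (w a) (n a) (j a)) :=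
  UPoly.of_le (NPC.Poly.snd (run_poly (pre_poly hw hn hj))) (UPoly.length hw)
    fun _ => hit_le _ _ _

/-- The common exponent. -/
def ex (w : List Bool) : ℕ := 3 * w.length + 1

/-- One term of the numerator. -/
def trm (w : List Bool) (n j : ℕ) : ℕ :=
  3 ^ hit w n j * 2 ^ (ex w - (2 * n + 1) - (lv n w.length).length)

/-- The numerator. -/
def nume (w : List Bool) : ℕ :=
  ((List.range w.length.size).map (fun n =>
    ((List.range (min (2 ^ n) w.length)).map (fun j => trm w n j)).sum)).sum +
      2 ^ (ex w - w.length.size)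

theorem sub_upoly {a b : α → ℕ} (ha : UPoly a) (hb : Poly b) : UPoly (fun x => a x - b x) :=
  UPoly.of_le (NPC.Poly.sub ha.toPoly hb) ha fun _ => Nat.sub_le _ _

theorem ex_poly {w : α → List Bool} (hw : Poly w) : UPoly (fun a => ex (w a)) :=
  ((UPoly.const 3).mul (UPoly.length hw)).add (UPoly.const 1)

theorem trm_poly {w : α → List Bool} {n j : α → ℕ} (hw : Poly w) (hn : UPoly n) (hj : Poly j) :
    Poly (fun a => trm (w a) (n a) (j a)) := by
  refine NPC.Poly.mul (powc_poly 3 (hit_poly hw hn hj)) (powc_poly 2 ?_)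
  refine sub_upoly (sub_upoly (ex_poly hw) ?_) ?_
  · exact (((UPoly.const 2).mul hn).add (UPoly.const 1)).toPoly
  · exact NPC.Poly.length (lv_poly hn.toPoly (UPoly.length hw))

theorem size_upoly {w : α → List Bool} (hw : Poly w) : UPoly (fun a => (w a).length.size) :=
  UPoly.of_le ((NPC.Poly.length (NPC.Poly.natBits (UPoly.length hw).toPoly)).congr fun q =>
    Nat.size_eq_bits_len _) (UPoly.length hw) fun _ => NPC.Poly.size_le_self _

theorem nume_poly {w : α → List Bool} (hw : Poly w) : Poly (fun a => nume (w a)) := by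
  refine NPC.Poly.add (NPC.Poly.sum ?_) (powc_poly 2 (sub_upoly (ex_poly hw)
    (size_upoly hw).toPoly))
  -- the exponent `n` is at most the length
  have key : ∀ w : List Bool, (List.range w.length.size).map (fun n =>
      ((List.range (min (2 ^ n) w.length)).map (fun j => trm w n j)).sum) =
      (List.range w.length.size).map (fun n =>
        ((List.range (min (2 ^ min n w.length) w.length)).map
          (fun j => trm w (min n w.length) j)).sum) := by
    intro w
    refine List.map_congr_left fun n hn => ?_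
    rw [List.mem_range] at hn
    have h1 := NPC.Poly.size_le_self w.length
    rw [min_eq_left (show n ≤ w.length by omega)]
  refine NPC.Poly.congr (f := fun a => (List.range (w a).length.size).map (fun n =>
        ((List.range (min (2 ^ min n (w a).length) (w a).length)).map
          (fun j => trm (w a) (min n (w a).length) j)).sum)) ?_ fun a => (key _).symm
  refine NPC.Poly.map (l := fun a => List.range (w a).length.size) (F := fun a n =>
    ((List.range (min (2 ^ min n (w a).length) (w a).length)).map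
      (fun j => trm (w a) (min n (w a).length) j)).sum) (size_upoly hw).range ?_
  have f : Poly (fun q : α × ℕ => w q.1) := hw.comp (NPC.Poly.fst NPC.Poly.id)
  have s : UPoly (fun q : α × ℕ => min q.2 (w q.1).length) := by
    refine UPoly.of_le ?_ (UPoly.length f) fun _ => min_le_right _ _
    have h1 : Poly (fun q : α × ℕ => q.2) := NPC.Poly.snd NPC.Poly.id
    have h2 := (UPoly.length f).toPoly
    refine (NPC.Poly.ite (NPC.Poly.decide_le h1 h2) h1 h2).congr fun q => ?_
    by_cases h : q.2 ≤ (w q.1).length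
    · rw [if_pos h, min_eq_left h]
    · rw [if_neg h, min_eq_right (by omega)]
  refine NPC.Poly.sum (NPC.Poly.map (l := fun q : α × ℕ =>
    List.range (min (2 ^ min q.2 (w q.1).length) (w q.1).length))
    (F := fun q j => trm (w q.1) (min q.2 (w q.1).length) j)
    (two_pow_min_poly s f).range ?_)
  exact trm_poly (f.comp (NPC.Poly.fst NPC.Poly.id)) (s.comp (NPC.Poly.fst NPC.Poly.id))
    (NPC.Poly.snd NPC.Poly.id)

end Pool.Agent.TH682.PM
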