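import Pool.Agent.TH682.EL.Thm

/-!
# Resource-bounded measure, and decision lists over subgroups
-/

set_option autoImplicit false

namespace Pool.Agent.TH682.PM

open Pool.Agent.NPC Pool.Agent.TH682.EL

/-- The string number `n` in the length-lexicographic enumeration of all strings. -/
def sn (n : ℕ) : List Bool := ((n + 1).bits.dropLast).reverse

open Classical in
/-- The first `n` bits of the characteristic sequence of the language `L`. -/
noncomputable def chi (L : Set (List Bool)) (n : ℕ) : List Bool :=
  (List.range n).map (fun i => decide (sn i ∈ L))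

/-- The value of a dyadic rational number, given by numerator and (in unary) exponent of the
denominator. -/
noncomputable def dy (q : ℕ × List Unit) : ℝ := q.1 / 2 ^ q.2.length

/-- The set `X` of languages has p-measure `0`: there is a p-null cover, that is, a system of density
functions `d k` with `d k [] ≤ 2 ^ (-k)` which cover `X`, and which can be approximated within
`2 ^ (-r)` by dyadic rationals computed in time polynomial in `k`, `r` (in unary) and the length of
the argument. -/
def PNull (X : Set (Set (List Bool))) : Prop :=
  ∃ (d : ℕ → List Bool → ℝ) (g : List Bool → ℕ × List Unit), PolyTime (fun z => bits (g z)) ∧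
    (∀ k w, 0 ≤ d k w ∧ (d k (w ++ [false]) + d k (w ++ [true])) / 2 ≤ d k w) ∧
    (∀ k, d k [] ≤ (1 / 2) ^ k) ∧
    (∀ k, ∀ L ∈ X, ∃ n, 1 ≤ d k (chi L n)) ∧
    ∀ k r w, |dy (g (bits (List.replicate k (), (List.replicate r (), w)))) - d k w| ≤ (1 / 2) ^ r

/-- For some polynomial-time `f` and infinitely many lengths `n`, the language `L` is given by the
decision list `f (x, a)` over some subgroup, for some advice `a < 2 ^ (n / 20)`. -/
def OftenList (L : Set (List Bool)) : Prop :=
  ∃ f : List Bool → List (List ℕ), PolyTime (fun z => bits (f z)) ∧
    ∀ n₀ : ℕ, ∃ n ≥ n₀, ∃ a < 2 ^ (n / 20), ∃ (N : ℕ) (H : Subgroup (Equiv.Perm (Fin N))),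
      ListOn n (fun x => f (bits (x, a))) H L

end Pool.Agent.TH682.PM
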