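import Pool.Agent.TH682.PM.Defs

/-!
# The martingale
-/

set_option autoImplicit false

namespace Pool.Agent.TH682.PM

open Pool.Agent.NPC Pool.Agent.TH682.EL Pool.Agent.TH682.GD

/-- The numbers below `t` of the strings of length `n`. -/
def lv (n t : ℕ) : List ℕ := (List.range t).filter (fun i => decide ((i + 1).size = n + 1))

theorem size_eq_iff {i n : ℕ} : (i + 1).size = n + 1 ↔ 2 ^ n ≤ i + 1 ∧ i + 1 < 2 ^ (n + 1) := by
  constructor
  · intro h
    refine ⟨?_, h ▸ Nat.lt_size_self (i + 1)⟩
    by_contra hcon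
    have := Nat.size_le.2 (not_le.1 hcon)
    omega
  · rintro ⟨h1, h2⟩
    refine le_antisymm (Nat.size_le.2 h2) ?_
    exact Nat.lt_size.2 h1

theorem lv_succ (n t : ℕ) : lv n (t + 1) = lv n t ++ (if (t + 1).size = n + 1 then [t] else []) := by
  unfold lv
  rw [List.range_succ, List.filter_append]
  congr 1
  by_cases h : (t + 1).size = n + 1 <;> simp [h]

theorem lv_nil {n t : ℕ} (h : t < 2 ^ n) : lv n t = [] := by
  unfold lv
  rw [List.filter_eq_nil_iff]
  intro i hi
  rw [List.mem_range] at hi
  rw [decide_eq_true_eq, size_eq_iff]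
  omega

theorem mem_lv {n t i : ℕ} (h : i ∈ lv n t) : i < t ∧ (i + 1).size = n + 1 := by
  unfold lv at h
  rw [List.mem_filter, List.mem_range, decide_eq_true_eq] at h
  exact h

theorem lv_length (n : ℕ) : (lv n (2 ^ (n + 1) - 1)).length = 2 ^ n := by
  have h1 : 1 ≤ 2 ^ n := Nat.one_le_two_pow
  have h2 : 2 ^ (n + 1) - 1 = (2 ^ n - 1) + 2 ^ n := by
    rw [pow_succ]
    omega
  unfold lv
  rw [h2, List.range_add, List.filter_append, List.length_append]
  have h3 : (List.range (2 ^ n - 1)).filter (fun i => decide ((i + 1).size = n + 1)) = [] := by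
    rw [List.filter_eq_nil_iff]
    intro i hi
    rw [List.mem_range] at hi
    rw [decide_eq_true_eq, size_eq_iff]
    omega
  rw [h3, List.length_nil, zero_add, List.filter_map, List.length_map,
    List.filter_eq_self.2, List.length_range]
  intro i hi
  rw [List.mem_range] at hi
  simp only [Function.comp, decide_eq_true_eq]
  rw [size_eq_iff]
  constructor
  · omega
  · rw [pow_succ]
    omega

theorem sn_length {i n : ℕ} (h : (i + 1).size = n + 1) : (sn i).length = n := by
  rw [sn, List.length_reverse, List.length_dropLast, Nat.size_eq_bits_len, h]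
  rfl

/-! ### Gamblers -/

/-- One step of a gambler; the state is the table of the learner and the number of right
predictions. -/
def gs (F : List Bool → List (List ℕ)) (w : List Bool) (s : List (List ℕ) × ℕ) (i : ℕ) :
    List (List ℕ) × ℕ :=
  if decide (cnt s.1 (F (sn i)) % 2 = 1) = w.getD i false then (s.1, s.2 + 1)
  else (lrn s.1 (F (sn i)), s.2)

/-- The state after the bits of `w` of level `n`. -/
def st (F : List Bool → List (List ℕ)) (w : List Bool) (n : ℕ) : List (List ℕ) × ℕ :=
  (lv n w.length).foldl (gs F w) ([], 0)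

theorem foldl_gs_append (F : List Bool → List (List ℕ)) (w : List Bool) (b : Bool) :
    ∀ (l : List ℕ) (s : List (List ℕ) × ℕ), (∀ i ∈ l, i < w.length) →
      l.foldl (gs F (w ++ [b])) s = l.foldl (gs F w) s := by
  intro l
  induction l with
  | nil => intro s _; rfl
  | cons i l ih =>
    intro s h
    rw [List.foldl_cons, List.foldl_cons, ih _ fun j hj => h j (by simp [hj])]
    congr 1
    have h1 : (w ++ [b]).getD i false = w.getD i false := by
      rw [List.getD_append _ _ _ _ (h i (by simp))]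
    unfold gs
    rw [h1]

theorem st_append (F : List Bool → List (List ℕ)) (w : List Bool) (b : Bool) (n : ℕ) :
    st F (w ++ [b]) n = if (w.length + 1).size = n + 1 then
      (if decide (cnt (st F w n).1 (F (sn w.length)) % 2 = 1) = b then
        ((st F w n).1, (st F w n).2 + 1) else (lrn (st F w n).1 (F (sn w.length)), (st F w n).2))
      else st F w n := by
  have h0 : st F (w ++ [b]) n = (lv n (w.length + 1)).foldl (gs F (w ++ [b])) ([], 0) := by
    unfold st
    rw [List.length_append, List.length_singleton]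
  rw [h0, lv_succ, List.foldl_append, foldl_gs_append F w b _ _ fun i hi => (mem_lv hi).1]
  have h1 : (lv n w.length).foldl (gs F w) ([], 0) = st F w n := rfl
  rw [h1]
  by_cases h : (w.length + 1).size = n + 1
  · rw [if_pos h, if_pos h, List.foldl_cons, List.foldl_nil]
    unfold gs
    have h2 : (w ++ [b]).getD w.length false = b := by
      rw [List.getD_eq_getElem _ _ (by simp)]
      simp
    rw [h2]
  · rw [if_neg h, if_neg h, List.foldl_nil]

/-- The capital of a gambler. -/
noncomputable def vl (F : List Bool → List (List ℕ)) (w : List Bool) (n : ℕ) : ℝ :=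
  3 ^ (st F w n).2 / 2 ^ (lv n w.length).length

theorem vl_nonneg (F : List Bool → List (List ℕ)) (w : List Bool) (n : ℕ) : 0 ≤ vl F w n := by
  unfold vl
  positivity

theorem vl_mart (F : List Bool → List (List ℕ)) (w : List Bool) (n : ℕ) :
    vl F (w ++ [false]) n + vl F (w ++ [true]) n = 2 * vl F w n := by
  have hl : ∀ b : Bool, (lv n (w ++ [b]).length).length = (lv n w.length).length +
      (if (w.length + 1).size = n + 1 then 1 else 0) := by
    intro b
    rw [List.length_append, List.length_singleton, lv_succ, List.length_append]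
    split_ifs <;> rfl
  unfold vl
  rw [hl, hl, st_append, st_append]
  by_cases h : (w.length + 1).size = n + 1
  · simp only [h, if_true]
    have h2 : (2 : ℝ) ^ ((lv n w.length).length + 1) = 2 * 2 ^ (lv n w.length).length := by
      rw [pow_succ]
      ring
    have h3 : (2 : ℝ) ^ (lv n w.length).length ≠ 0 := by positivity
    cases hb : decide (cnt (st F w n).1 (F (sn w.length)) % 2 = 1)
    · simp only [if_true, Bool.false_eq_true, if_false]
      rw [h2, pow_succ]
      field_simp
      norm_num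
    · simp only [Bool.true_eq_false, if_true, if_false]
      rw [h2, pow_succ]
      field_simp
      norm_num
  · simp only [h, if_false, add_zero]
    ring

theorem vl_one {F : List Bool → List (List ℕ)} {w : List Bool} {n : ℕ} (h : w.length < 2 ^ n) :
    vl F w n = 1 := by
  unfold vl st
  rw [lv_nil h]
  simp

/-! ### The mixture -/

/-- The mixture up to level `M`. -/
noncomputable def DM (G : ℕ → ℕ → List Bool → List (List ℕ)) (w : List Bool) (M : ℕ) : ℝ :=
  (∑ n ∈ Finset.range M, (1 / 2) ^ (2 * n + 1) * ∑ j ∈ Finset.range (2 ^ n), vl (G n j) w n) +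
    (1 / 2) ^ M

theorem DM_succ {G : ℕ → ℕ → List Bool → List (List ℕ)} {w : List Bool} {M : ℕ}
    (h : w.length < 2 ^ M) : DM G w (M + 1) = DM G w M := by
  unfold DM
  rw [Finset.sum_range_succ]
  have h1 : ∑ j ∈ Finset.range (2 ^ M), vl (G M j) w M = 2 ^ M := by
    rw [Finset.sum_congr rfl fun j _ => vl_one h]
    simp
  rw [h1]
  have h2 : (1 / 2 : ℝ) ^ (2 * M + 1) * 2 ^ M = (1 / 2) ^ (M + 1) := by
    rw [show 2 * M + 1 = (M + 1) + M by ring, pow_add, mul_assoc, ← mul_pow]
    norm_num
  rw [h2, pow_succ]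
  ring

theorem DM_eq {G : ℕ → ℕ → List Bool → List (List ℕ)} {w : List Bool} {M : ℕ}
    (h : w.length.size ≤ M) : DM G w M = DM G w w.length.size := by
  induction M, h using Nat.le_induction with
  | base => rfl
  | succ M hM ih => rw [DM_succ (Nat.size_le.1 hM), ih]

/-- The martingale. -/
noncomputable def DD (G : ℕ → ℕ → List Bool → List (List ℕ)) (w : List Bool) : ℝ :=
  DM G w w.length.size

theorem DD_nonneg (G : ℕ → ℕ → List Bool → List (List ℕ)) (w : List Bool) : 0 ≤ DD G w := by
  unfold DD DM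
  refine add_nonneg (Finset.sum_nonneg fun n _ => mul_nonneg (by positivity)
    (Finset.sum_nonneg fun j _ => vl_nonneg _ _ _)) (by positivity)

theorem DD_mart (G : ℕ → ℕ → List Bool → List (List ℕ)) (w : List Bool) :
    (DD G (w ++ [false]) + DD G (w ++ [true])) / 2 = DD G w := by
  have h0 : ∀ b : Bool, DD G (w ++ [b]) = DM G (w ++ [b]) (w.length + 1).size := by
    intro b
    unfold DD
    rw [List.length_append, List.length_singleton]
  have h1 : DD G w = DM G w (w.length + 1).size :=
    (DM_eq (Nat.size_le_size (Nat.le_succ _))).symm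
  rw [h0, h0, h1]
  unfold DM
  have h2 : ∀ n, (1 / 2 : ℝ) ^ (2 * n + 1) * ∑ j ∈ Finset.range (2 ^ n), vl (G n j) w n =
      ((1 / 2) ^ (2 * n + 1) * ∑ j ∈ Finset.range (2 ^ n), vl (G n j) (w ++ [false]) n +
        (1 / 2) ^ (2 * n + 1) * ∑ j ∈ Finset.range (2 ^ n), vl (G n j) (w ++ [true]) n) / 2 := by
    intro n
    rw [← mul_add, ← Finset.sum_add_distrib, Finset.sum_congr rfl fun j _ => vl_mart (G n j) w n,
      ← Finset.mul_sum]
    ring
  rw [Finset.sum_congr rfl fun n _ => h2 n, ← Finset.sum_div, Finset.sum_add_distrib]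
  ring

theorem DD_nil (G : ℕ → ℕ → List Bool → List (List ℕ)) : DD G [] = 1 := by
  unfold DD DM
  simp

/-- The mixture is at least the weighted capital of each gambler. -/
theorem le_DD {G : ℕ → ℕ → List Bool → List (List ℕ)} {w : List Bool} {n j : ℕ}
    (hn : n < w.length.size) (hj : j < 2 ^ n) : (1 / 2) ^ (2 * n + 1) * vl (G n j) w n ≤ DD G w := by
  unfold DD DM
  have h1 : vl (G n j) w n ≤ ∑ j ∈ Finset.range (2 ^ n), vl (G n j) w n :=
    Finset.single_le_sum (f := fun j => vl (G n j) w n) (fun j _ => vl_nonneg _ _ _)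
      (Finset.mem_range.2 hj)
  have h2 : (1 / 2 : ℝ) ^ (2 * n + 1) * ∑ j ∈ Finset.range (2 ^ n), vl (G n j) w n ≤
      ∑ n ∈ Finset.range w.length.size, (1 / 2) ^ (2 * n + 1) *
        ∑ j ∈ Finset.range (2 ^ n), vl (G n j) w n :=
    Finset.single_le_sum (f := fun n => (1 / 2 : ℝ) ^ (2 * n + 1) *
      ∑ j ∈ Finset.range (2 ^ n), vl (G n j) w n) (fun n _ => mul_nonneg (by positivity)
        (Finset.sum_nonneg fun j _ => vl_nonneg _ _ _)) (Finset.mem_range.2 hn)
  have h3 : (1 / 2 : ℝ) ^ (2 * n + 1) * vl (G n j) w n ≤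
      (1 / 2) ^ (2 * n + 1) * ∑ j ∈ Finset.range (2 ^ n), vl (G n j) w n :=
    mul_le_mul_of_nonneg_left h1 (by positivity)
  have h4 : (0 : ℝ) ≤ (1 / 2) ^ w.length.size := by positivity
  linarith

/-! ### Winning -/

theorem gs_inv {F : List Bool → List (List ℕ)} {w : List Bool} {N : ℕ}
    {H : Subgroup (Equiv.Perm (Fin N))} : ∀ (l : List ℕ) (s : List (List ℕ) × ℕ),
    (∀ i ∈ l, ∃ ps : List (Equiv.Perm (Fin N)), F (sn i) = ps.map vals ∧
      (w.getD i false = true ↔ Odd (lead H ps))) →
    Tab N s.1 → (∀ v ∈ s.1, InH H v) →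
    Tab N (l.foldl (gs F w) s).1 ∧ (∀ v ∈ (l.foldl (gs F w) s).1, InH H v) ∧
      (l.foldl (gs F w) s).1.length + (l.foldl (gs F w) s).2 = s.1.length + s.2 + l.length := by
  intro l
  induction l with
  | nil => intro s _ h1 h2; exact ⟨h1, h2, rfl⟩
  | cons i l ih =>
    intro s h h1 h2
    obtain ⟨ps, h3, h4⟩ := h i (by simp)
    have key : Tab N (gs F w s i).1 ∧ (∀ v ∈ (gs F w s i).1, InH H v) ∧
        (gs F w s i).1.length + (gs F w s i).2 = s.1.length + s.2 + 1 := by
      unfold gs
      by_cases h5 : decide (cnt s.1 (F (sn i)) % 2 = 1) = w.getD i false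
      · rw [if_pos h5]
        exact ⟨h1, h2, rfl⟩
      · rw [if_neg h5, h3]
        rcases cnt_or h1 h2 ps with h6 | ⟨h6, h7, h8⟩
        · exfalso
          apply h5
          rw [h3, ← h6, Bool.eq_iff_iff, decide_eq_true_eq, h4, Nat.odd_iff]
        · exact ⟨h6, h7, by rw [h8]; ring⟩
    obtain ⟨k1, k2, k3⟩ := key
    obtain ⟨m1, m2, m3⟩ := ih (gs F w s i) (fun j hj => h j (by simp [hj])) k1 k2
    refine ⟨m1, m2, ?_⟩
    rw [List.foldl_cons, m3, k3, List.length_cons]
    ring

/-- A gambler with the right function makes at most `N ^ 2` mistakes on level `n`. -/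
theorem win {F : List Bool → List (List ℕ)} {L : Set (List Bool)} {n N : ℕ}
    {H : Subgroup (Equiv.Perm (Fin N))} (h : ListOn n F H L) :
    2 ^ n ≤ (st F (chi L (2 ^ (n + 1) - 1)) n).2 + N ^ 2 := by
  classical
  have hlen : (chi L (2 ^ (n + 1) - 1)).length = 2 ^ (n + 1) - 1 := by
    rw [chi, List.length_map, List.length_range]
  obtain ⟨h1, _, h3⟩ := gs_inv (F := F) (w := chi L (2 ^ (n + 1) - 1)) (H := H)
    (lv n (2 ^ (n + 1) - 1)) ([], 0) (fun i hi => by
      obtain ⟨h4, h5⟩ := mem_lv hi
      obtain ⟨ps, h6, h7⟩ := h (sn i) (sn_length h5)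
      refine ⟨ps, h6, ?_⟩
      rw [← h7, List.getD_eq_getElem _ _ (by rw [hlen]; exact h4)]
      simp [chi]) (tab_nil N) (by simp)
  have h4 := tab_length_le h1
  rw [lv_length] at h3
  unfold st
  rw [hlen]
  simp only [List.length_nil] at h3
  omega

end Pool.Agent.TH682.PM
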