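import Pool.Agent.TH682.PM.Comp

/-!
# Languages which are often given by decision lists over subgroups form a set of p-measure zero
-/

set_option autoImplicit false

namespace Pool.Agent.TH682.PM

open Pool.Agent.NPC Pool.Agent.H579R2.Spt Pool.Agent.TH682.EL Pool.Agent.TH682.GD
open Pool.Agent.TH684.EX (poly_of_polyTime)
open Pool.Agent.TH682.VC (num str bits_num str_num num_poly str_poly num_lt PB two_pow_size_le)
open Pool.Agent.H660R2.NX (U U_complete poly_U)

theorem sum_map_range (f : ℕ → ℕ) (m : ℕ) :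
    ((List.range m).map f).sum = ∑ i ∈ Finset.range m, f i := by
  induction m with
  | zero => rfl
  | succ m ih =>
    rw [List.range_succ, List.map_append, List.sum_append, ih, Finset.sum_range_succ]
    simp

theorem DD_eq (w : List Bool) : DD GG w = nume w / 2 ^ ex w := by
  have hs := NPC.Poly.size_le_self w.length
  have hterm : ∀ n < w.length.size, ∀ j, (1 / 2 : ℝ) ^ (2 * n + 1) * vl (GG n j) w n =
      (trm w n j : ℝ) / 2 ^ ex w := by
    intro n hn j
    have h1 : (lv n w.length).length ≤ w.length := by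
      unfold lv
      exact (List.length_filter_le _ _).trans (by rw [List.length_range])
    have h2 : ex w = (2 * n + 1) + (lv n w.length).length +
        (ex w - (2 * n + 1) - (lv n w.length).length) := by
      unfold ex
      omega
    unfold vl trm hit
    rw [st_eq hn]
    set S := ((pre w n j).foldl gs2 ([], 0)).2
    set l := (lv n w.length).length
    have h2' : (2 : ℝ) ^ ex w = 2 ^ (2 * n + 1) * 2 ^ l * 2 ^ (ex w - (2 * n + 1) - l) := by
      rw [← pow_add, ← pow_add, ← h2]
    push_cast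
    rw [eq_div_iff (by positivity), h2']
    have h3 : (1 / 2 : ℝ) ^ (2 * n + 1) * 2 ^ (2 * n + 1) = 1 := by
      rw [← mul_pow]
      norm_num
    have h4 : (3 : ℝ) ^ S / 2 ^ l * 2 ^ l = 3 ^ S := div_mul_cancel₀ _ (by positivity)
    calc (1 / 2 : ℝ) ^ (2 * n + 1) * (3 ^ S / 2 ^ l) *
          (2 ^ (2 * n + 1) * 2 ^ l * 2 ^ (ex w - (2 * n + 1) - l)) =
        ((1 / 2 : ℝ) ^ (2 * n + 1) * 2 ^ (2 * n + 1)) * (3 ^ S / 2 ^ l * 2 ^ l) *
            2 ^ (ex w - (2 * n + 1) - l) := by ring
      _ = _ := by rw [h3, h4, one_mul]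
  unfold DD DM nume
  simp only [sum_map_range]
  push_cast
  rw [add_div, Finset.sum_div]
  congr 1
  · refine Finset.sum_congr rfl fun n hn => ?_
    rw [Finset.mem_range] at hn
    rw [Finset.mul_sum, min_eq_left (Nat.lt_size.1 hn), Finset.sum_div]
    exact Finset.sum_congr rfl fun j _ => hterm n hn j
  · have h2 : ex w = w.length.size + (ex w - w.length.size) := by
      unfold ex
      omega
    rw [eq_div_iff (by positivity)]
    conv_lhs => rw [h2, pow_add]
    have h3 : (1 / 2 : ℝ) ^ w.length.size * 2 ^ w.length.size = 1 := by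
      rw [← mul_pow]
      norm_num
    rw [← mul_assoc, h3, one_mul]

/-- The computation. -/
def gg (z : List Bool) : ℕ × List Unit :=
  (nume ((unbits (List Unit × (List Unit × List Bool)) z).getD ([], ([], []))).2.2,
    List.replicate (((unbits (List Unit × (List Unit × List Bool)) z).getD ([], ([], []))).1.length +
      ex ((unbits (List Unit × (List Unit × List Bool)) z).getD ([], ([], []))).2.2) ())

theorem gg_poly : Poly gg := by
  have d0 : Poly (fun z : List Bool =>
      (unbits (List Unit × (List Unit × List Bool)) z).getD ([], ([], []))) :=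
    NPC.Poly.optGetD poly_unbits (NPC.Poly.const _)
  have d1 := NPC.Poly.fst d0
  have d2 := NPC.Poly.snd (NPC.Poly.snd d0)
  exact NPC.Poly.pair (nume_poly d2) ((UPoly.length d1).add (ex_poly d2))

/-- A list on level `n` can be bet upon. -/
theorem exists_gambler {f : List Bool → List (List ℕ)} (hf : PolyTime (fun z => bits (f z))) :
    ∃ n₀, ∀ n ≥ n₀, ∀ a < 2 ^ (n / 20), ∀ (N : ℕ) (H : Subgroup (Equiv.Perm (Fin N)))
      (L : Set (List Bool)), ListOn n (fun x => f (bits (x, a))) H L →
        ∃ j < 2 ^ n, ∃ N' < 2 ^ (n / 8), ∃ H' : Subgroup (Equiv.Perm (Fin N')),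
          ListOn n (GG n j) H' L := by
  have hfp : Poly f := poly_of_polyTime hf
  obtain ⟨e, p, he⟩ := U_complete hf
  obtain ⟨pf, hpf⟩ := (hfp.comp (bits_poly (α := List Bool × ℕ))).sz_le
  set q : Polynomial ℕ := Polynomial.C 5 * Polynomial.X + 3 with hq
  obtain ⟨n₁, hn₁⟩ := exists_eval_lt (p.comp q)
  obtain ⟨n₂, hn₂⟩ := exists_eval_lt (pf.comp q)
  refine ⟨n₁ + n₂ + 20 * sz e + 50, fun n hn a ha N H L hL => ?_⟩
  have hs : ∀ x : List Bool, x.length = n → sz (x, a) ≤ q.eval n := by
    intro x hx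
    rw [sz_pair]
    have h1 := sz_listBool_le x
    have h2 := sz_nat_le a
    have h3 := Nat.size_le.2 ha
    simp only [hq, Polynomial.eval_add, Polynomial.eval_mul, Polynomial.eval_C, Polynomial.eval_X,
      Polynomial.eval_ofNat]
    omega
  have h1 : (bits (e, a)).length ≤ sz e + 4 * (n / 20) + 2 := by
    rw [bits_length, sz_pair]
    have h2 := sz_nat_le a
    have h3 := Nat.size_le.2 ha
    omega
  have hj : num (bits (e, a)) < 2 ^ n := (num_lt _).trans_le
    (Nat.pow_le_pow_right (by norm_num) (by omega))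
  have hval : ∀ x : List Bool, x.length = n →
      GG n (num (bits (e, a))) x = f (bits (x, a)) := by
    intro x hx
    unfold GG GT
    simp only [str_num, unbits_bits]
    unfold out
    have h2 := he (bits (x, a)) (List.replicate (2 ^ n) true).length (by
      have h3 := hn₁ n (by omega)
      rw [Polynomial.eval_comp] at h3
      have h4 : p.eval (bits (x, a)).length ≤ p.eval (q.eval n) := by
        rw [bits_length]
        exact eval_mono p (hs _ hx)
      have h5 : 2 ^ (n / 8) ≤ (List.replicate (2 ^ n) true).length := by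
        rw [List.length_replicate]
        exact Nat.pow_le_pow_right (by norm_num) (by omega)
      omega)
    simp only [h2, unbits_bits]
    rfl
  by_cases hx : ∃ x : List Bool, x.length = n ∧ f (bits (x, a)) ≠ []
  · obtain ⟨x, hx1, hx2⟩ := hx
    obtain ⟨ps, h2, h3⟩ := hL x hx1
    simp only at h2
    have hN : N < 2 ^ (n / 8) := by
      rcases ps with _ | ⟨σ, ps⟩
      · exact absurd h2 hx2
      · have h4 := hpf (x, a)
        rw [h2, List.map_cons] at h4
        have h5 := length_lt_sz (vals σ)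
        have h6 : sz (vals σ) < sz (vals σ :: ps.map vals) := sz_le_of_mem (by simp)
        rw [vals_length] at h5
        have h7 := hn₂ n (by omega)
        rw [Polynomial.eval_comp] at h7
        have h8 := eval_mono pf (hs x hx1)
        omega
    refine ⟨_, hj, N, hN, H, fun y hy => ?_⟩
    obtain ⟨ps', h4, h5⟩ := hL y hy
    exact ⟨ps', by rw [hval y hy]; exact h4, h5⟩
  · push Not at hx
    refine ⟨_, hj, 0, Nat.two_pow_pos _, ⊥, fun y hy => ?_⟩
    refine ⟨[], by rw [hval y hy]; exact hx y hy, ?_⟩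
    obtain ⟨ps, h3, h4⟩ := hL y hy
    simp only at h3
    rw [hx y hy] at h3
    have h5 : ps = [] := List.map_eq_nil_iff.1 h3.symm
    rw [h4, h5]
    rfl

theorem three_pow_ge (q : ℕ) : 2 ^ (3 * q) ≤ 3 ^ (2 * q) := by
  rw [pow_mul, pow_mul]
  exact Nat.pow_le_pow_left (by norm_num) q

/-- **The languages which are given by decision lists over subgroups at infinitely many lengths have
p-measure zero.** -/
theorem null_often : PNull {L | OftenList L} := by
  refine ⟨fun k w => (1 / 2) ^ k * DD GG w, gg, polyTime_bits gg_poly, fun k w => ⟨?_, ?_⟩,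
    fun k => ?_, fun k L hL => ?_, fun k r w => ?_⟩
  · exact mul_nonneg (by positivity) (DD_nonneg _ _)
  · show ((1 / 2 : ℝ) ^ k * DD GG (w ++ [false]) + (1 / 2) ^ k * DD GG (w ++ [true])) / 2 ≤
      (1 / 2) ^ k * DD GG w
    rw [← DD_mart GG w]
    exact le_of_eq (by ring)
  · show (1 / 2 : ℝ) ^ k * DD GG [] ≤ (1 / 2) ^ k
    rw [DD_nil, mul_one]
  · obtain ⟨f, hf, hL⟩ := hL
    obtain ⟨n₀, hn₀⟩ := exists_gambler hf
    obtain ⟨n₁, hn₁⟩ := exists_eval_lt (Polynomial.C 4 * Polynomial.X + Polynomial.C (2 * k + 5))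
    obtain ⟨n, hn, a, ha, N, H, h⟩ := hL (n₀ + n₁ + 8)
    obtain ⟨j, hj, N', hN', H', h'⟩ := hn₀ n (by omega) a ha N H L h
    refine ⟨2 ^ (n + 1) - 1, ?_⟩
    have hw : (chi L (2 ^ (n + 1) - 1)).length = 2 ^ (n + 1) - 1 := by
      rw [chi, List.length_map, List.length_range]
    have hsize : n < (chi L (2 ^ (n + 1) - 1)).length.size := by
      rw [hw, Nat.lt_size, pow_succ]
      have := Nat.one_le_two_pow (n := n)
      omega
    have h1 := le_DD (G := GG) hsize hj
    have h2 := win h'
    set w := chi L (2 ^ (n + 1) - 1) with hwdef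
    have h3 := hn₁ n (by omega)
    simp only [Polynomial.eval_add, Polynomial.eval_mul, Polynomial.eval_C, Polynomial.eval_X]
      at h3
    have h4 : N' ^ 2 ≤ 2 ^ (n / 4) := by
      calc N' ^ 2 ≤ (2 ^ (n / 8)) ^ 2 := Nat.pow_le_pow_left hN'.le 2
        _ = 2 ^ (n / 8 * 2) := by rw [← pow_mul]
        _ ≤ _ := Nat.pow_le_pow_right (by norm_num) (by omega)
    have h5 : 2 ^ (n / 8) ≤ 2 ^ (n / 4) := Nat.pow_le_pow_right (by norm_num) (by omega)
    have h6 : 4 * 2 ^ (n / 4) ≤ 2 ^ n := by
      calc 4 * 2 ^ (n / 4) = 2 ^ (n / 4 + 2) := by rw [pow_add]; ring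
        _ ≤ _ := Nat.pow_le_pow_right (by norm_num) (by omega)
    set h0 := (st (GG n j) w n).2 with hh0
    have h7 : k + (2 * n + 1) + 2 ^ n ≤ 3 * ((2 ^ n - N' ^ 2) / 2) := by omega
    have h8 : 2 * ((2 ^ n - N' ^ 2) / 2) ≤ h0 := by omega
    have h9 : 2 ^ (k + (2 * n + 1) + 2 ^ n) ≤ 3 ^ h0 :=
      (Nat.pow_le_pow_right (by norm_num) h7).trans ((three_pow_ge _).trans
        (Nat.pow_le_pow_right (by norm_num) h8))
    have h10 : (2 : ℝ) ^ (k + (2 * n + 1) + 2 ^ n) ≤ 3 ^ h0 := by exact_mod_cast h9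
    have h11 : vl (GG n j) w n = 3 ^ h0 / 2 ^ 2 ^ n := by
      unfold vl
      rw [hw, lv_length]
    have h12 : (1 : ℝ) ≤ (1 / 2) ^ k * ((1 / 2) ^ (2 * n + 1) * vl (GG n j) w n) := by
      rw [h11]
      have e1 : (1 / 2 : ℝ) ^ k * ((1 / 2) ^ (2 * n + 1) * (3 ^ h0 / 2 ^ 2 ^ n)) =
          3 ^ h0 / 2 ^ (k + (2 * n + 1) + 2 ^ n) := by
        rw [pow_add, pow_add, one_div, inv_pow, inv_pow]
        field_simp
        ring
      rw [e1, le_div_iff₀ (by positivity), one_mul]
      exact h10
    exact h12.trans (mul_le_mul_of_nonneg_left h1 (by positivity))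
  · have h1 : dy (gg (bits (List.replicate k (), (List.replicate r (), w)))) =
        (1 / 2) ^ k * DD GG w := by
      unfold gg dy
      rw [unbits_bits]
      simp only [Option.getD_some, List.length_replicate]
      rw [DD_eq, pow_add, one_div, inv_pow]
      field_simp
    rw [h1, sub_self, abs_zero]
    positivity

/-! ### Consequences -/

theorem groupList_compl {A : Set (List Bool)} (hA : GroupList A) : GroupList Aᶜ := by
  classical
  obtain ⟨f, b, hf, hG⟩ := hA
  have hfp : Poly f := poly_of_polyTime hf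
  obtain ⟨pf, hpf⟩ := (hfp.comp (bits_poly (α := List Bool × (List Bool × ℕ)))).sz_le
  -- decoding of the advice
  have hdp : Poly (fun a : ℕ => (unbits (ℕ × ℕ) (str a)).getD (0, 0)) :=
    NPC.Poly.optGetD (poly_unbits.comp str_poly) (NPC.Poly.const _)
  set dc : ℕ → ℕ × ℕ := fun a => (unbits (ℕ × ℕ) (str a)).getD (0, 0) with hdc
  have hdc' : ∀ r : ℕ × ℕ, dc (num (bits r)) = r := by
    intro r
    simp only [hdc, str_num, unbits_bits]
    rfl
  set Nb : ℕ → ℕ := fun n => pf.eval (8 * n + 4 * (n ^ b + b) + 5) with hNb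
  have hNPB : PB Nb := by
    refine ⟨pf.comp (Polynomial.C 8 * Polynomial.X + Polynomial.C 4 * (Polynomial.X ^ b +
      Polynomial.C b) + 5), fun n => le_of_eq ?_⟩
    rw [Polynomial.eval_comp]
    simp [hNb]
  have hPB : PB (fun n => 2 ^ 4 * ((2 * (n ^ b + b) + 1) ^ 4 * (2 * Nb n + 1) ^ 4)) :=
    (PB.const _).mul (((((PB.const 2).mul ((PB.id.pow b).add (PB.const b))).add
      (PB.const 1)).pow 4).mul ((((PB.const 2).mul hNPB).add (PB.const 1)).pow 4))
  obtain ⟨b', hb'⟩ := hPB.bound
  have hnum : ∀ n a N : ℕ, a ≤ n ^ b + b → N ≤ Nb n → num (bits (a, N)) ≤ n ^ b' + b' := by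
    intro n a N ha hN
    refine ((num_lt _).le.trans ?_).trans (hb' n)
    rw [bits_length, sz_pair]
    have h1 := sz_nat_le a
    have h2 := sz_nat_le N
    calc 2 ^ (sz a + sz N + 1 + 1) ≤ 2 ^ (4 + (a.size * 4 + N.size * 4)) :=
          Nat.pow_le_pow_right (by norm_num) (by omega)
      _ = 2 ^ 4 * ((2 ^ a.size) ^ 4 * (2 ^ N.size) ^ 4) := by
          rw [pow_add, pow_add, pow_mul, pow_mul]
      _ ≤ _ := by
          refine Nat.mul_le_mul_left _ (Nat.mul_le_mul ?_ ?_)
          · refine Nat.pow_le_pow_left ((two_pow_size_le _).trans ?_) 4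
            omega
          · refine Nat.pow_le_pow_left ((two_pow_size_le _).trans ?_) 4
            omega
  have hNbU : ∀ {u : List Bool → List Bool}, Poly u → UPoly (fun z => Nb (u z).length) := by
    intro u hu
    have h1 : UPoly (fun z => (u z).length) := UPoly.length hu
    exact ((((UPoly.const 8).mul h1).add ((UPoly.const 4).mul ((Pool.Agent.W901.FH.pow_upolyc h1
      b).add (UPoly.const b)))).add (UPoly.const 5)).eval pf
  have d1 : Poly (fun z => (dib z).1) := NPC.Poly.fst dib_poly
  have d2 : Poly (fun z => (dib z).2.1) := NPC.Poly.fst (NPC.Poly.snd dib_poly)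
  have d3 : Poly (fun z => dc (dib z).2.2) := hdp.comp (NPC.Poly.snd (NPC.Poly.snd dib_poly))
  refine ⟨fun z => (List.range (Nb (dib z).2.1.length)).take (dc (dib z).2.2).2 ::
    f (bits ((dib z).1, ((dib z).2.1, (dc (dib z).2.2).1))), b', ?_, fun n => ?_⟩
  · exact polyTime_bits (NPC.Poly.cons (take_poly' (hNbU d2).range (NPC.Poly.snd d3))
      (hfp.comp (bits_poly.comp (NPC.Poly.pair d1 (NPC.Poly.pair d2 (NPC.Poly.fst d3))))))
  · obtain ⟨a, ha, N, H, h1⟩ := hG n
    by_cases hx : ∃ x : List Bool, x.length ≤ n ∧ f (bits (x, (List.replicate n true, a))) ≠ []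
    · obtain ⟨x, hx1, hx2⟩ := hx
      have hN : N ≤ Nb n := by
        obtain ⟨ps, h2, _⟩ := h1 x hx1
        rcases ps with _ | ⟨σ, ps⟩
        · exact absurd h2 hx2
        · have h4 := hpf (x, (List.replicate n true, a))
          rw [h2, List.map_cons] at h4
          have h5 := length_lt_sz (vals σ)
          have h6 : sz (vals σ) < sz (vals σ :: ps.map vals) := sz_le_of_mem (by simp)
          rw [vals_length] at h5
          have h7 : sz ((x, (List.replicate n true, a)) : List Bool × (List Bool × ℕ)) ≤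
              8 * n + 4 * (n ^ b + b) + 5 := by
            rw [sz_pair, sz_pair]
            have e1 := sz_listBool_le x
            have e2 := sz_listBool_le (List.replicate n true)
            have e3 := sz_nat_le a
            have e4 := NPC.Poly.size_le_self a
            rw [List.length_replicate] at e2
            omega
          have h8 := eval_mono pf h7
          simp only [hNb]
          omega
      refine ⟨num (bits (a, N)), hnum n a N ha hN, N, H, fun y hy => ?_⟩
      obtain ⟨ps, h3, h4⟩ := h1 y hy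
      refine ⟨1 :: ps, ?_, ?_⟩
      · simp only [dib_bits, hdc', List.length_replicate]
        rw [List.map_cons, vals_one, h3, List.take_range, min_eq_left hN]
      · rw [Set.mem_compl_iff, h4]
        have h5 : lead H (1 :: ps) = lead H ps + 1 := by
          unfold lead
          rw [List.takeWhile_cons]
          simp [H.one_mem]
        rw [h5, Nat.odd_add_one]
    · push Not at hx
      refine ⟨num (bits (a, 0)), hnum n a 0 ha (Nat.zero_le _), 0, ⊥, fun y hy => ?_⟩
      refine ⟨[1], ?_, ?_⟩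
      · simp only [dib_bits, hdc', List.length_replicate]
        rw [hx y hy, List.map_cons, vals_one, List.take_zero]
        rfl
      · obtain ⟨ps, h3, h4⟩ := h1 y hy
        rw [hx y hy] at h3
        have h5 : ps = [] := List.map_eq_nil_iff.1 h3.symm
        rw [Set.mem_compl_iff, h4, h5]
        simp [lead]

theorem exists_pow_lt (b n₀ : ℕ) : ∃ n ≥ n₀, n ^ b + b < 2 ^ (n / 20) := by
  obtain ⟨n₁, hn₁⟩ := exists_eval_lt ((Polynomial.X ^ b + Polynomial.C b) ^ 3)
  refine ⟨40 * (n₀ + n₁), by omega, ?_⟩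
  have h2 := hn₁ (40 * (n₀ + n₁)) (by omega)
  simp only [Polynomial.eval_add, Polynomial.eval_pow, Polynomial.eval_C, Polynomial.eval_X] at h2
  by_contra hcon
  have h3 : 2 ^ (40 * (n₀ + n₁) / 20) ≤ (40 * (n₀ + n₁)) ^ b + b := not_lt.1 hcon
  have h4 := Nat.pow_le_pow_left h3 3
  rw [← pow_mul] at h4
  have h5 : 2 ^ (40 * (n₀ + n₁) / 8) ≤ 2 ^ (40 * (n₀ + n₁) / 20 * 3) :=
    Nat.pow_le_pow_right (by norm_num) (by omega)
  omega

/-- A set which is given by decision lists at all lengths is given by them often. -/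
theorem often_of_groupList {A : Set (List Bool)} (hA : GroupList A) : OftenList A := by
  obtain ⟨f, b, hf, h⟩ := hA
  refine ⟨shr f, shr_polyTime hf, fun n₀ => ?_⟩
  obtain ⟨n, hn, hb⟩ := exists_pow_lt b n₀
  obtain ⟨a, ha, N, H, h1⟩ := h n
  refine ⟨n, hn, a, ha.trans_lt hb, N, H, fun x hx => ?_⟩
  obtain ⟨ps, h2, h3⟩ := h1 x hx.le
  exact ⟨ps, by simp only [shr_bits, hx]; exact h2, h3⟩

theorem PNull.mono {X Y : Set (Set (List Bool))} (hXY : X ⊆ Y) (hY : PNull Y) : PNull X := by
  obtain ⟨d, g, h1, h2, h3, h4, h5⟩ := hY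
  exact ⟨d, g, h1, h2, h3, fun k L hL => h4 k L (hXY hL), h5⟩

/-- **If a hard set for `NP` or `coNP` is given by decision lists over subgroups, then `NP` has
p-measure zero.** -/
theorem np_null {A : Set (List Bool)} (hA : NPHard A ∨ NPHard Aᶜ) (h : GroupList A) :
    PNull {L | InNP L} := by
  refine PNull.mono ?_ null_often
  intro L hL
  rcases hA with hA | hA
  · exact often_of_groupList (GroupList.of_reduces (hA L hL) h)
  · exact often_of_groupList (GroupList.of_reduces (hA L hL) (groupList_compl h))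

end Pool.Agent.TH682.PM
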